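import Mathlib

/-!
# Ternary square-free words that are square-free modulo every term of a sparse sequence

We prove that for every sequence `s` of moduli with `351 ≤ s 0` and `352 * s i ≤ s (i + 1)` there is an
infinite ternary square-free word which is square-free modulo every `s i`.

Method.  (1) Two families of blocks, of lengths 17 and 18 (one block of each length for each letter), such
that replacing the letters of a square-free word by blocks, with any choice of the lengths, gives a
square-free word (`brink`, a Brinkhuis type lemma; the finite checks are `chkA` and `chkB`).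
(2) Choosing the lengths suitably we can prescribe the letters at positions that are at distance at least
175 from one another, and the letter at position `n` depends only on the demands near `n` (`good0`).
(3) Induction on the moduli: the demands for the next modulus `M` sit at the multiples of `M`; those
that are near a demanded position are not prescribed but read off (locality), and are taken as demands
for the subsequence modulo `M` (`good_step`).
(4) Compactness (`compact_words`).
-/

namespace Pool.Agent.Results.MP_908f5f_co.SparseModuli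

/-- Letter number `o` of the word coded in base `3` by `N`. -/
def lt (N o : ℕ) : Fin 3 := ⟨N / 3^o % 3, Nat.mod_lt _ (by decide)⟩

/-- Lengths of the two blocks of each type: `17` for the short one, `18` for the long one. -/
def ln (s : Bool) : ℕ := bif s then 18 else 17

/-- Codes (in base `3`, first letter = lowest digit) of the six blocks. -/
def cd (s : Bool) (a : Fin 3) : ℕ :=
  bif s then (bif Nat.beq a.val 0 then 75843399 else bif Nat.beq a.val 1 then 221185681 else 284101652)
  else (bif Nat.beq a.val 0 then 25281417 else bif Nat.beq a.val 1 then 73728664 else 94700162)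

/-- letters `j` of `M` and `N` differ for some `j` below the last argument -/
def anyDiff (M N : ℕ) : ℕ → Bool
  | 0 => false
  | j+1 => (!(Nat.beq (M / 3^j % 3) (N / 3^j % 3))) || anyDiff M N j

/-- no square at the start of `N` with period at most the last argument -/
def sqAt (N n : ℕ) : ℕ → Bool
  | 0 => true
  | l+1 => (Nat.blt n (2*(l+1)) || anyDiff N (N / 3^(l+1)) (l+1)) && sqAt N n l

/-- no square in `N` as a word of length the last argument -/
def sqChk : ℕ → ℕ → Bool
  | _, 0 => true
  | N, n+1 => sqAt N (n+1) ((n+1)/2) && sqChk (N/3) n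

def N2 (s : Bool) (x : Fin 3) (t : Bool) (y : Fin 3) : ℕ := cd s x + 3^(ln s) * cd t y
def N3 (s : Bool) (x : Fin 3) (t : Bool) (y : Fin 3) (u : Bool) (z : Fin 3) : ℕ :=
  cd s x + 3^(ln s) * (cd t y + 3^(ln t) * cd u z)

/-- the block `(u,z)` occurs in `N` at offset `o` only if it is allowed -/
def syncChk (N : ℕ) (s : Bool) (x : Fin 3) (u : Bool) (z : Fin 3) (o : ℕ) : Bool :=
  anyDiff (N / 3^o) (cd u z) (ln u) || (Nat.beq o 0 && (u == s) && Nat.beq z.val x.val)

set_option maxRecDepth 100000 in
theorem chkA : ∀ s t u : Bool, ∀ x y z : Fin 3, x ≠ y → y ≠ z →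
    sqChk (N3 s x t y u z) (ln s + ln t + ln u) = true := by
  decide +kernel

set_option maxRecDepth 100000 in
theorem chkB : ∀ s t u : Bool, ∀ x y z : Fin 3, x ≠ y → ∀ o < ln s,
    syncChk (N2 s x t y) s x u z o = true := by
  decide +kernel

theorem cd_lt : ∀ s x, cd s x < 3^(ln s) := by decide +kernel

theorem anyDiff_spec (M N : ℕ) : ∀ l, anyDiff M N l = true → ∃ j < l, lt M j ≠ lt N j := by
  intro l
  induction l with
  | zero => intro h; simp [anyDiff] at h
  | succ l ih =>
    intro h
    simp only [anyDiff, Bool.or_eq_true, Bool.not_eq_true'] at h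
    rcases h with h | h
    · refine ⟨l, Nat.lt_succ_self l, ?_⟩
      intro h2
      have h3 : M / 3^l % 3 = N / 3^l % 3 := congrArg Fin.val h2
      rw [h3] at h
      simp at h
    · obtain ⟨j, hj, h2⟩ := ih h
      exact ⟨j, Nat.lt_succ_of_lt hj, h2⟩

theorem lt_div (N a b : ℕ) : lt (N / 3^a) b = lt N (a + b) := by
  simp only [lt, Nat.div_div_eq_div_mul, pow_add]

theorem lt_div1 (N b : ℕ) : lt (N / 3) b = lt N (1 + b) := by
  have := lt_div N 1 b
  simpa using this

theorem sqAt_spec (N n : ℕ) : ∀ L, sqAt N n L = true → ∀ l, 0 < l → l ≤ L → 2*l ≤ n →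
    ∃ j < l, lt N j ≠ lt N (l + j) := by
  intro L
  induction L with
  | zero => intro _ l h0 h1; omega
  | succ L ih =>
    intro h l h0 h1 h2
    simp only [sqAt, Bool.and_eq_true, Bool.or_eq_true] at h
    obtain ⟨h3, h4⟩ := h
    rcases Nat.lt_or_ge L l with h5 | h5
    · have h6 : l = L + 1 := by omega
      subst h6
      rcases h3 with h3 | h3
      · rw [Nat.blt_eq] at h3; omega
      · obtain ⟨j, hj, h7⟩ := anyDiff_spec _ _ _ h3
        refine ⟨j, hj, ?_⟩
        rwa [lt_div] at h7
    · exact ih h4 l h0 h5 h2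

theorem sqChk_spec : ∀ n N, sqChk N n = true → ∀ i l, 0 < l → i + 2*l ≤ n →
    ∃ j < l, lt N (i + j) ≠ lt N (i + l + j) := by
  intro n
  induction n with
  | zero => intro N _ i l h0 h1; omega
  | succ n ih =>
    intro N h i l h0 h1
    simp only [sqChk, Bool.and_eq_true] at h
    obtain ⟨h2, h3⟩ := h
    cases i with
    | zero =>
      obtain ⟨j, hj, h4⟩ := sqAt_spec N (n+1) _ h2 l h0 (by omega) (by omega)
      exact ⟨j, hj, by simpa using h4⟩
    | succ i =>
      obtain ⟨j, hj, h4⟩ := ih (N/3) h3 i l h0 (by omega)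
      refine ⟨j, hj, ?_⟩
      rw [lt_div1, lt_div1] at h4
      have e1 : i + 1 + j = 1 + (i + j) := by ring
      have e2 : i + 1 + l + j = 1 + (i + l + j) := by ring
      rw [e1, e2]; exact h4

theorem lt_cat (a b n o : ℕ) (ha : a < 3^n) :
    lt (a + 3^n * b) o = if o < n then lt a o else lt b (o - n) := by
  split_ifs with h
  · apply Fin.ext
    show (a + 3^n*b) / 3^o % 3 = a / 3^o % 3
    obtain ⟨k, rfl⟩ := Nat.exists_eq_add_of_lt h
    have e : a + 3^(o+k+1) * b = a + 3^o * (3 * (3^k * b)) := by ring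
    rw [e, Nat.add_mul_div_left _ _ (by positivity)]
    omega
  · obtain ⟨k, rfl⟩ := Nat.exists_eq_add_of_le (Nat.le_of_not_lt h)
    have e : lt (a + 3^n*b) (n + k) = lt ((a + 3^n*b) / 3^n) k := (lt_div _ _ _).symm
    rw [e, Nat.add_mul_div_left _ _ (by positivity), Nat.div_eq_of_lt ha]
    simp

theorem lt_N2 (s x t y o) : lt (N2 s x t y) o =
    if o < ln s then lt (cd s x) o else lt (cd t y) (o - ln s) :=
  lt_cat _ _ _ _ (cd_lt s x)

theorem lt_N3 (s x t y u z o) : lt (N3 s x t y u z) o =
    if o < ln s then lt (cd s x) o else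
      if o - ln s < ln t then lt (cd t y) (o - ln s) else lt (cd u z) (o - ln s - ln t) := by
  unfold N3
  rw [lt_cat _ _ _ _ (cd_lt s x), lt_cat _ _ _ _ (cd_lt t y)]

theorem chkB_spec (s t u : Bool) (x y z : Fin 3) (hxy : x ≠ y) (o : ℕ) (ho : o < ln s)
    (h : ∀ j < ln u, lt (N2 s x t y) (o + j) = lt (cd u z) j) : o = 0 ∧ u = s ∧ z = x := by
  have h1 := chkB s t u x y z hxy o ho
  simp only [syncChk, Bool.or_eq_true, Bool.and_eq_true] at h1
  rcases h1 with h1 | h1
  · obtain ⟨j, hj, h2⟩ := anyDiff_spec _ _ _ h1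
    rw [lt_div] at h2
    exact absurd (h j hj) h2
  · obtain ⟨⟨h2, h3⟩, h4⟩ := h1
    refine ⟨by simpa using h2, by simpa using h3, ?_⟩
    apply Fin.ext
    simpa using h4

theorem chkA_spec (s t u : Bool) (x y z : Fin 3) (hxy : x ≠ y) (hyz : y ≠ z) (i l : ℕ) (hl : 0 < l)
    (h : i + 2*l ≤ ln s + ln t + ln u) :
    ∃ j < l, lt (N3 s x t y u z) (i + j) ≠ lt (N3 s x t y u z) (i + l + j) :=
  sqChk_spec _ _ (chkA s t u x y z hxy hyz) i l hl h

theorem ln_pos (s : Bool) : 17 ≤ ln s ∧ ln s ≤ 18 := by cases s <;> simp [ln]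

/-- The word `w` has no square that ends before position `N`. -/
def SqF (w : ℕ → Fin 3) (N : ℕ) : Prop :=
  ∀ i l, 0 < l → i + 2*l ≤ N → ∃ j < l, w (i + j) ≠ w (i + l + j)

section Brinkhuis

variable {v : ℕ → Fin 3} {s : ℕ → Bool} {P : ℕ → ℕ} {W : ℕ → Fin 3}

theorem P_mono (hP : ∀ k, P (k+1) = P k + ln (s k)) : StrictMono P := by
  apply strictMono_nat_of_lt_succ
  intro k
  have := ln_pos (s k)
  rw [hP k]; omega

theorem P_ge (hP : ∀ k, P (k+1) = P k + ln (s k)) (k : ℕ) : P 0 + 17 * k ≤ P k := by
  induction k with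
  | zero => simp
  | succ k ih => have := ln_pos (s k); rw [hP k]; omega

theorem P_loc (hP0 : P 0 = 0) (hP : ∀ k, P (k+1) = P k + ln (s k)) (n : ℕ) :
    ∃ k, P k ≤ n ∧ n < P (k+1) := by
  induction n with
  | zero => exact ⟨0, by omega, by have := ln_pos (s 0); rw [hP 0]; omega⟩
  | succ n ih =>
    obtain ⟨k, h1, h2⟩ := ih
    by_cases h3 : n + 1 < P (k+1)
    · exact ⟨k, by omega, h3⟩
    · refine ⟨k+1, by omega, ?_⟩
      have := ln_pos (s (k+1)); rw [hP (k+1)]; omega

theorem brink (hP0 : P 0 = 0) (hP : ∀ k, P (k+1) = P k + ln (s k))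
    (hW : ∀ k o, o < ln (s k) → W (P k + o) = lt (cd (s k) (v k)) o)
    (N : ℕ) (hv : SqF v (N+2)) : SqF W (P N) := by
  have hmono := P_mono hP
  have hle : ∀ a b, P a ≤ P b ↔ a ≤ b := fun a b => hmono.le_iff_le
  have hlt : ∀ a b, P a < P b ↔ a < b := fun a b => hmono.lt_iff_lt
  -- consecutive types differ
  have hadj : ∀ k, k ≤ N → v k ≠ v (k+1) := by
    intro k hk
    obtain ⟨j, hj, h⟩ := hv k 1 one_pos (by omega)
    have : j = 0 := by omega
    subst this
    simpa using h
  -- occurrences of blocks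
  have hsync : ∀ m x, x + ln (s m) ≤ P N → (∀ o < ln (s m), W (x + o) = W (P m + o)) →
      ∃ k, x = P k ∧ s k = s m ∧ v k = v m := by
    intro m x hx h
    obtain ⟨k, hk1, hk2⟩ := P_loc hP0 hP x
    have hkN : k < N := by
      rw [← hlt]; have := ln_pos (s m); omega
    have e : x = P k + (x - P k) := by omega
    have ho : x - P k < ln (s k) := by rw [hP k] at hk2; omega
    have h1 := chkB_spec (s k) (s (k+1)) (s m) (v k) (v (k+1)) (v m) (hadj k hkN.le) (x - P k) ho
      (by
        intro j hj
        rw [← hW m j hj, ← h j hj, lt_N2]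
        have l1 := ln_pos (s m)
        have l2 := ln_pos (s k)
        have l3 := ln_pos (s (k+1))
        split_ifs with h4
        · rw [← hW k _ h4]; congr 1; omega
        · rw [← hW (k+1) _ (by omega)]; congr 1; rw [hP k]; omega)
    exact ⟨k, by omega, h1.2.1.symm, h1.2.2.symm⟩
  intro i l hl hiN
  by_contra hcon
  push Not at hcon
  -- forward and backward synchronisation
  have hfwd : ∀ m, i ≤ P m → P (m+1) ≤ i + l → ∃ k, P m + l = P k ∧ s k = s m ∧ v k = v m := by
    intro m h1 h2
    rw [hP m] at h2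
    apply hsync m (P m + l) (by omega)
    intro o ho
    have := hcon (P m + o - i) (by omega)
    have e1 : i + (P m + o - i) = P m + o := by omega
    have e2 : i + l + (P m + o - i) = P m + l + o := by omega
    rw [e1, e2] at this
    exact this.symm
  have hbwd : ∀ m, i + l ≤ P m → P (m+1) ≤ i + 2*l → ∃ k, P k + l = P m ∧ s k = s m ∧ v k = v m := by
    intro m h1 h2
    rw [hP m] at h2
    obtain ⟨k, hk1, hk2, hk3⟩ := hsync m (P m - l) (by omega) (by
      intro o ho
      have := hcon (P m - l + o - i) (by omega)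
      have e1 : i + (P m - l + o - i) = P m - l + o := by omega
      have e2 : i + l + (P m - l + o - i) = P m + o := by omega
      rw [e1, e2] at this
      exact this)
    exact ⟨k, by omega, hk2, hk3⟩
  obtain ⟨k, hk1, hk2⟩ := P_loc hP0 hP i
  have hkN : k < N := by rw [← hlt]; omega
  by_cases hA : i + 2*l ≤ P (k+3)
  · -- the square lies in three blocks
    have hA1 := hP k
    have hA2 := hP (k+1)
    have hA3 := hP (k+2)
    have hl2 : P (k+3) = P k + ln (s k) + ln (s (k+1)) + ln (s (k+2)) := by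
      rw [hA3, hA2, hA1]
    obtain ⟨j, hj, h⟩ := chkA_spec (s k) (s (k+1)) (s (k+2)) (v k) (v (k+1)) (v (k+2))
      (hadj k (by omega)) (hadj (k+1) (by omega)) (i - P k) l hl (by omega)
    have key : ∀ o, o < ln (s k) + ln (s (k+1)) + ln (s (k+2)) →
        lt (N3 (s k) (v k) (s (k+1)) (v (k+1)) (s (k+2)) (v (k+2))) o = W (P k + o) := by
      intro o ho
      rw [lt_N3]
      split_ifs with h1 h2
      · exact (hW k o h1).symm
      · rw [← hW (k+1) _ h2]; congr 1; omega
      · rw [← hW (k+2) _ (by omega)]; congr 1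
        have : P (k+2) = P (k+1) + ln (s (k+1)) := hA2
        omega
    rw [key _ (by omega), key _ (by omega)] at h
    apply h
    have := hcon j hj
    have e1 : P k + (i - P k + j) = i + j := by omega
    have e2 : P k + (i - P k + l + j) = i + l + j := by omega
    rw [e1, e2]; exact this
  · -- at least four blocks
    have hA' : P (k+3) < i + 2*l := by omega
    have hk12 := (hlt (k+1) (k+2)).2 (by omega)
    have hk23 := (hlt (k+2) (k+3)).2 (by omega)
    -- an aligned full block in the first half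
    obtain ⟨m, m', hm1, hm2, hm3⟩ : ∃ m m', i ≤ P m ∧ P (m+1) ≤ i + l ∧ P m + l = P m' := by
      by_cases hB : P (k+2) ≤ i + l
      · obtain ⟨m', h1, _, _⟩ := hfwd (k+1) (by omega) hB
        exact ⟨k+1, m', by omega, hB, h1⟩
      · obtain ⟨m, h1, h2, h3⟩ := hbwd (k+2) (by omega) (by
          show P (k+3) ≤ _
          omega)
        refine ⟨m, k+2, by omega, ?_, h1⟩
        have h4 := hP m
        have h5 := hP (k+2)
        have h6 : P (k+2+1) = P (k+3) := rfl
        rw [h2] at h4
        omega
    have hmm : m < m' := by rw [← hlt]; omega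
    obtain ⟨r, rfl⟩ : ∃ r, m' = m + r := ⟨m' - m, by omega⟩
    have hr : 0 < r := by omega
    -- extension upwards
    have hup : ∀ t, P (m + t) ≤ i + l → P (m + t) + l = P (m + t + r) := by
      intro t
      induction t with
      | zero => intro _; simpa using hm3
      | succ t ih =>
        intro h
        have h' : P (m + t + 1) ≤ i + l := h
        have h0 : P (m + t) < P (m + t + 1) := (hlt _ _).2 (by omega)
        have h1 := ih (by omega)
        have h00 : P m ≤ P (m + t) := (hle _ _).2 (by omega)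
        obtain ⟨q, hq1, hq2, hq3⟩ := hfwd (m + t) (by omega) h'
        have hq : q = m + t + r := by
          apply hmono.injective; omega
        subst hq
        have h2 := hP (m + t)
        have h3 := hP (m + t + r)
        rw [hq2] at h3
        have e1 : m + (t + 1) + r = m + t + r + 1 := by ring
        have e2 : m + (t+1) = m + t + 1 := by ring
        rw [e1, e2, h3, h2]; omega
    -- extension downwards
    have hdn : ∀ t, t ≤ m → i ≤ P (m - t) → P (m - t) + l = P (m - t + r) := by
      intro t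
      induction t with
      | zero => intro _ _; simpa using hm3
      | succ t ih =>
        intro h1 h2
        have e0 : m - t = m - (t + 1) + 1 := by omega
        have h0 : P (m - (t+1)) < P (m - t) := (hlt _ _).2 (by omega)
        have h3 := ih (by omega) (by omega)
        have h00 : P (m - t) ≤ P m := (hle _ _).2 (by omega)
        have h01 : P m < P (m+1) := (hlt _ _).2 (by omega)
        obtain ⟨q, hq1, hq2, hq3⟩ := hfwd (m - (t+1)) h2 (by rw [← e0]; omega)
        have h4 := hP (m - (t+1))
        have h5 := hP q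
        rw [hq2] at h5
        rw [← e0] at h4
        have hq : q + 1 = m - t + r := by
          apply hmono.injective; omega
        have : q = m - (t+1) + r := by omega
        rw [← this]; exact hq1
    have hall : ∀ j, i ≤ P j → P j ≤ i + l → P j + l = P (j + r) := by
      intro j h1 h2
      rcases Nat.lt_or_ge m j with h | h
      · have := hup (j - m) (by rw [show m + (j - m) = j by omega]; exact h2)
        rwa [show m + (j - m) = j by omega] at this
      · have := hdn (m - j) (by omega) (by rw [show m - (m - j) = j by omega]; exact h1)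
        rwa [show m - (m - j) = j by omega] at this
    have hvv : ∀ j, i ≤ P j → P (j+1) ≤ i + l → v j = v (j + r) ∧ s j = s (j + r) := by
      intro j h1 h2
      have h0 : P j < P (j+1) := (hlt _ _).2 (by omega)
      obtain ⟨q, hq1, hq2, hq3⟩ := hfwd j h1 h2
      have h3 := hall j h1 (by omega)
      have hq : q = j + r := by apply hmono.injective; omega
      subst hq
      exact ⟨hq3.symm, hq2.symm⟩
    -- the first boundary `a` and the block `b` of the midpoint
    obtain ⟨a, ha1, ha2⟩ : ∃ a, i ≤ P a ∧ ∀ j, i ≤ P j → a ≤ j := by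
      have hex : ∃ a, i ≤ P a := ⟨m, hm1⟩
      exact ⟨Nat.find hex, Nat.find_spec hex, fun j hj => Nat.find_min' hex hj⟩
    obtain ⟨b, hb1, hb2⟩ := P_loc hP0 hP (i + l)
    have ham : a ≤ m := ha2 m hm1
    have hPam : P a ≤ P m := (hle _ _).2 ham
    have hPm : P m < P (m+1) := (hlt _ _).2 (by omega)
    have hmb : m + 1 ≤ b := by
      have : P (m+1) < P (b+1) := by omega
      rw [hlt] at this; omega
    have hmb' : P (m+1) ≤ P b := (hle _ _).2 hmb
    have hPar : P a + l = P (a + r) := hall a ha1 (by omega)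
    have hbar : b ≤ a + r := by rw [← hle]; omega
    have hbar2 : a + r ≤ b + 1 := by
      by_contra hh
      have h1 : P (b + 2) ≤ P (a + r) := (hle _ _).2 (by omega)
      obtain ⟨q, hq1, hq2, hq3⟩ := hbwd (b+1) hb2.le (by
        show P (b+2) ≤ _
        omega)
      have h2 : a ≤ q := ha2 q (by omega)
      have h3 : P a ≤ P q := (hle _ _).2 h2
      have h4 : P (a + r) ≤ P (b + 1) := by omega
      rw [hle] at h4; omega
    rcases Nat.lt_or_ge b (a + r) with hcase | hcase
    · -- a + r = b + 1
      have hab : a + r = b + 1 := by omega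
      rw [hab] at hPar
      have hPai : i < P a := by
        rcases Nat.lt_or_ge i (P a) with h | h
        · exact h
        · omega
      have ha0 : a ≠ 0 := by rintro rfl; omega
      obtain ⟨a', rfl⟩ := Nat.exists_eq_succ_of_ne_zero ha0
      have hPa' : P a' < i := by
        by_contra hh
        have := ha2 a' (by omega)
        omega
      have hb : b = a' + r := by omega
      subst hb
      have hPb : P (a' + r) < i + l := by
        by_contra hh
        have h1 : P (a' + r) = i + l := by omega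
        obtain ⟨q, hq1, hq2, hq3⟩ := hbwd (a' + r) h1.ge (by omega)
        have h2 := ha2 q (by omega)
        have h3 : P (a'.succ) ≤ P q := (hle _ _).2 h2
        omega
      have hPb2 : P (a' + r) + l = P (a' + r + r) := hall _ (by omega) (by omega)
      have hbN : a' + r + r < N := by rw [← hlt]; omega
      have hvj : ∀ j, j + 1 < r → v (a' + 1 + j) = v (a' + 1 + j + r) := by
        intro j hj
        refine (hvv _ ?_ ?_).1
        · have : P (a' + 1) ≤ P (a' + 1 + j) := (hle _ _).2 (by omega)
          exact le_trans ha1 this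
        · have : P (a' + 1 + j + 1) ≤ P (a' + r) := (hle _ _).2 (by omega)
          omega
      have hxy : v a' ≠ v (a' + r) := by
        intro h
        obtain ⟨j, hj, h1⟩ := hv a' r hr (by omega)
        apply h1
        cases j with
        | zero => simpa using h
        | succ j =>
          have := hvj j hj
          rw [show a' + (j+1) = a' + 1 + j by ring, show a' + r + (j + 1) = a' + 1 + j + r by ring]
          exact this
      have hyz : v (a' + r) ≠ v (a' + r + r) := by
        intro h
        obtain ⟨j, hj, h1⟩ := hv (a' + 1) r hr (by omega)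
        apply h1
        rcases Nat.lt_or_ge (j+1) r with h2 | h2
        · have := hvj j h2
          rw [show a' + 1 + r + j = a' + 1 + j + r by ring]
          exact this
        · have : j + 1 = r := by omega
          rw [show a' + 1 + j = a' + r by omega, show a' + 1 + r + j = a' + r + r by omega]
          exact h
      have e1 : P (a'.succ) = P a' + ln (s a') := hP a'
      have e2 : P (a' + r + 1) = P (a' + r) + ln (s (a' + r)) := hP (a' + r)
      have e3 : P (a' + r + r + 1) = P (a' + r + r) + ln (s (a' + r + r)) := hP (a' + r + r)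
      have hPar' : P (a' + 1) + l = P (a' + r + 1) := hPar
      have e1' : P (a' + 1) = P a' + ln (s a') := hP a'
      have hPai' : i < P (a' + 1) := hPai
      have hend : i + 2*l ≤ P (a' + r + r + 1) := by
        by_contra hh
        obtain ⟨q, hq1, hq2, hq3⟩ := hbwd (a' + r + r) (by omega) (by omega)
        have hq : q = a' + r := by apply hmono.injective; omega
        subst hq
        rw [hq2] at e2
        omega
      obtain ⟨j, hj, h⟩ := chkA_spec (s a') (s (a'+r)) (s (a'+r+r)) (v a') (v (a'+r)) (v (a'+r+r))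
        hxy hyz (i - P a') (ln (s (a' + r))) (by have := ln_pos (s (a'+r)); omega)
        (by
          have := ln_pos (s (a' + r))
          omega)
      rw [lt_N3, lt_N3] at h
      apply h
      rcases Nat.lt_or_ge (i + j) (P (a' + 1)) with hc | hc
      · rw [if_pos (by omega), if_neg (by omega), if_pos (by omega), ← hW _ _ (by omega),
          ← hW _ _ (by omega)]
        have := hcon j (by omega)
        rw [show P a' + (i - P a' + j) = i + j by omega,
          show P (a' + r) + (i - P a' + ln (s (a' + r)) + j - ln (s a')) = i + l + j by omega]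
        exact this
      · rw [if_neg (by omega), if_pos (by omega), if_neg (by omega), if_neg (by omega),
          ← hW _ _ (by omega), ← hW _ _ (by omega)]
        have := hcon (P (a' + r) + (i + j - P (a' + 1)) - i) (by omega)
        rw [show i + (P (a' + r) + (i + j - P (a' + 1)) - i) = 
            P (a' + r) + (i - P a' + j - ln (s a')) by omega,
          show i + l + (P (a' + r) + (i + j - P (a' + 1)) - i) = 
            P (a' + r + r) + (i - P a' + ln (s (a' + r)) + j - ln (s a') - ln (s (a' + r))) by omega] at this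
        exact this
    · -- a + r = b
      have hab : b = a + r := by omega
      subst hab
      have hPai : P a = i := by omega
      obtain ⟨j, hj, h1⟩ := hv a r hr (by
        have h2 : P (a + r) + l = P (a + r + r) := hall _ (by omega) (by omega)
        have h3 : P (a + r + r) ≤ P N := by omega
        rw [hle] at h3
        omega)
      apply h1
      have := (hvv (a + j) (by
        have : P a ≤ P (a + j) := (hle _ _).2 (by omega)
        omega) (by
        have : P (a + j + 1) ≤ P (a + r) := (hle _ _).2 (by omega)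
        omega)).1
      rw [this]
      congr 1; ring

end Brinkhuis


/-- Infinite word without squares. -/
def SqFree (w : ℕ → Fin 3) : Prop := ∀ i l, 0 < l → ∃ j < l, w (i + j) ≠ w (i + l + j)

theorem SqFree.sqF {w : ℕ → Fin 3} (h : SqFree w) (N : ℕ) : SqF w N :=
  fun i l hl _ => h i l hl

theorem exists_W (v : ℕ → Fin 3) (s : ℕ → Bool) (P : ℕ → ℕ) (hP0 : P 0 = 0)
    (hP : ∀ k, P (k+1) = P k + ln (s k)) :
    ∃ W : ℕ → Fin 3, ∀ k o, o < ln (s k) → W (P k + o) = lt (cd (s k) (v k)) o := by
  choose f hf using P_loc hP0 hP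
  refine ⟨fun n => lt (cd (s (f n)) (v (f n))) (n - P (f n)), ?_⟩
  intro k o ho
  have hmono := P_mono hP
  have h := hf (P k + o)
  have hk : f (P k + o) = k := by
    have h1 : P (f (P k + o)) < P (k + 1) := by rw [hP k]; omega
    have h2 : P k < P (f (P k + o) + 1) := by omega
    rw [hmono.lt_iff_lt] at h1 h2
    omega
  simp only [hk]
  congr 1
  omega

/-- Compactness of the space of words. -/
theorem compact_words (F : ℕ → ℕ → Fin 3) :
    ∃ w : ℕ → Fin 3, ∀ (A : Finset ℕ) (n₀ : ℕ), ∃ m, n₀ ≤ m ∧ ∀ a ∈ A, F m a = w a := by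
  classical
  let U : Ultrafilter ℕ := Filter.hyperfilter ℕ
  have h : ∀ n, ∃ c : Fin 3, ∀ᶠ m in (U : Filter ℕ), F m n = c := by
    intro n
    have h1 : ∀ᶠ m in (U : Filter ℕ), (F m n = 0 ∨ F m n = 1) ∨ F m n = 2 := by
      apply Filter.Eventually.of_forall
      intro m
      generalize F m n = x
      revert x; decide
    rw [Ultrafilter.eventually_or, Ultrafilter.eventually_or] at h1
    rcases h1 with (h1 | h1) | h1
    · exact ⟨0, h1⟩
    · exact ⟨1, h1⟩
    · exact ⟨2, h1⟩
  choose w hw using h
  refine ⟨w, fun A n₀ => ?_⟩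
  have h1 : ∀ᶠ m in (U : Filter ℕ), ∀ a ∈ A, F m a = w a := by
    rw [Filter.eventually_all_finset]
    intro a _; exact hw a
  have h2 : ∀ᶠ m in (U : Filter ℕ), n₀ ≤ m := by
    have : ∀ᶠ m in Filter.cofinite, n₀ ≤ m := by
      rw [Nat.cofinite_eq_atTop]; exact Filter.eventually_ge_atTop n₀
    exact Filter.hyperfilter_le_cofinite this
  obtain ⟨m, h3, h4⟩ := (h1.and h2).exists
  exact ⟨m, h4, h3⟩

theorem exists_SqF (N : ℕ) : ∃ v : ℕ → Fin 3, SqF v (N+3) := by
  induction N with
  | zero =>
    refine ⟨fun n => if n = 1 then 1 else 0, ?_⟩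
    intro i l hl h
    have : l = 1 := by omega
    subst this
    refine ⟨0, one_pos, ?_⟩
    have : i = 0 ∨ i = 1 := by omega
    rcases this with rfl | rfl <;> simp
  | succ N ih =>
    obtain ⟨v, hv⟩ := ih
    have hP : ∀ k, 17 * (k+1) = 17 * k + ln ((fun _ => false) k) := by
      intro k; simp [ln]; ring
    obtain ⟨W, hW⟩ := exists_W v (fun _ => false) (fun k => 17 * k) rfl hP
    have h := brink (P := fun k => 17 * k) (s := fun _ => false) rfl hP hW (N+1) hv
    refine ⟨W, ?_⟩
    intro i l hl h1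
    exact h i l hl (by show i + 2*l ≤ 17 * (N+1); omega)

theorem exists_SqFree : ∃ v : ℕ → Fin 3, SqFree v := by
  choose F hF using exists_SqF
  obtain ⟨w, hw⟩ := compact_words F
  refine ⟨w, ?_⟩
  intro i l hl
  obtain ⟨m, hm, h⟩ := hw (Finset.range (i + 2*l)) (i + 2*l)
  obtain ⟨j, hj, h1⟩ := hF m i l hl (by omega)
  refine ⟨j, hj, ?_⟩
  rw [← h _ (by simp; omega), ← h _ (by simp; omega)]
  exact h1

/-- A fixed square-free word. -/
noncomputable def vv : ℕ → Fin 3 := exists_SqFree.choose
theorem vv_spec : SqFree vv := exists_SqFree.choose_spec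

/-- option sequence attached to a shift function `h` -/
def sf (h : ℕ → ℕ) (k : ℕ) : Bool :=
  if k % 2 = 0 then decide (h (k/2) < h (k/2+1)) else decide (h (k/2) ≤ h (k/2+1))

/-- block starts attached to a shift function `h` -/
def Pf (h : ℕ → ℕ) (k : ℕ) : ℕ :=
  if k % 2 = 0 then 35 * (k/2) + h (k/2) else 35 * (k/2) + h (k/2) + ln (decide (h (k/2) < h (k/2+1)))

/-- admissible shift functions -/
def Adm (h : ℕ → ℕ) : Prop := h 0 = 0 ∧ ∀ i, h (i+1) ≤ h i + 1 ∧ h i ≤ h (i+1) + 1

theorem Pf_zero {h : ℕ → ℕ} (hh : Adm h) : Pf h 0 = 0 := by simp [Pf, hh.1]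

theorem Pf_succ {h : ℕ → ℕ} (hh : Adm h) (k : ℕ) : Pf h (k+1) = Pf h k + ln (sf h k) := by
  obtain ⟨j, hj⟩ : ∃ j, k = 2*j ∨ k = 2*j+1 := ⟨k/2, by omega⟩
  have h1 := (hh.2 j).1
  have h2 := (hh.2 j).2
  rcases hj with rfl | rfl
  · have e1 : (2*j+1) % 2 = 1 := by omega
    have e2 : (2*j+1) / 2 = j := by omega
    have e3 : (2*j) % 2 = 0 := by omega
    have e4 : (2*j) / 2 = j := by omega
    simp only [Pf, sf, e1, e2, e3, e4]
    simp
  · have e1 : (2*j+1) % 2 = 1 := by omega
    have e2 : (2*j+1) / 2 = j := by omega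
    have e3 : (2*j+1+1) % 2 = 0 := by omega
    have e4 : (2*j+1+1) / 2 = j+1 := by omega
    simp only [Pf, sf, e1, e2, e3, e4]
    simp only [ln, one_ne_zero, if_false, if_true]
    rcases Nat.lt_trichotomy (h j) (h (j+1)) with h3 | h3 | h3
    · simp [h3, h3.le]; omega
    · simp [h3]; omega
    · simp [not_lt.2 h3.le, not_le.2 h3]; omega

theorem exists_Wf {h : ℕ → ℕ} (hh : Adm h) :
    ∃ W : ℕ → Fin 3, ∀ k o, o < ln (sf h k) → W (Pf h k + o) = lt (cd (sf h k) (vv k)) o :=
  exists_W vv (sf h) (Pf h) (Pf_zero hh) (Pf_succ hh)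

open Classical in
/-- the word attached to a shift function -/
noncomputable def Wf (h : ℕ → ℕ) : ℕ → Fin 3 :=
  if hh : Adm h then (exists_Wf hh).choose else fun _ => 0

theorem Wf_spec {h : ℕ → ℕ} (hh : Adm h) (k o : ℕ) (ho : o < ln (sf h k)) :
    Wf h (Pf h k + o) = lt (cd (sf h k) (vv k)) o := by
  unfold Wf
  rw [dif_pos hh]
  exact (exists_Wf hh).choose_spec k o ho

theorem Wf_sqFree {h : ℕ → ℕ} (hh : Adm h) : SqFree (Wf h) := by
  intro i l hl
  have h1 := brink (P := Pf h) (s := sf h) (Pf_zero hh) (Pf_succ hh) (Wf_spec hh) (i + 2*l)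
    (vv_spec.sqF _)
  refine h1 i l hl ?_
  have := P_ge (Pf_succ hh) (i + 2*l)
  omega

theorem SqFree.four {w : ℕ → Fin 3} (h : SqFree w) (n : ℕ) (c : Fin 3) :
    w (n+3) = c ∨ w (n+2) = c ∨ w (n+1) = c ∨ w n = c := by
  have h1 : w n ≠ w (n+1) := by
    obtain ⟨j, hj, h2⟩ := h n 1 one_pos
    have : j = 0 := by omega
    subst this; simpa using h2
  have h2 : w (n+1) ≠ w (n+2) := by
    obtain ⟨j, hj, h2⟩ := h (n+1) 1 one_pos
    have : j = 0 := by omega
    subst this; simpa using h2
  have h3 : w (n+2) ≠ w (n+3) := by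
    obtain ⟨j, hj, h2⟩ := h (n+2) 1 one_pos
    have : j = 0 := by omega
    subst this; simpa using h2
  have h4 : ¬ (w n = w (n+2) ∧ w (n+1) = w (n+3)) := by
    obtain ⟨j, hj, h2⟩ := h n 2 two_pos
    rintro ⟨h5, h6⟩
    have : j = 0 ∨ j = 1 := by omega
    rcases this with rfl | rfl
    · exact h2 (by simpa using h5)
    · exact h2 (by simpa [add_assoc] using h6)
  revert h1 h2 h3 h4
  generalize w n = a
  generalize w (n+1) = b
  generalize w (n+2) = x
  generalize w (n+3) = y
  revert a b x y c
  decide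

/-- default word -/
noncomputable def D : ℕ → Fin 3 := Wf (fun _ => 0)

theorem adm0 : Adm (fun _ => 0) := ⟨rfl, fun i => ⟨by simp, by simp⟩⟩

theorem D_sqFree : SqFree D := Wf_sqFree adm0

/-- how far to shift to get letter `c` at position `q` -/
noncomputable def tt (q : ℕ) (c : Fin 3) : ℕ :=
  if D (q + 140) = c then 0 else if D (q + 139) = c then 1 else if D (q + 138) = c then 2 else 3

theorem tt_le (q : ℕ) (c : Fin 3) : tt q c ≤ 3 := by
  unfold tt; split_ifs <;> omega

theorem tt_spec (q : ℕ) (c : Fin 3) : D (q + 140 - tt q c) = c := by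
  have h := D_sqFree.four (q + 137) c
  unfold tt
  split_ifs with h1 h2 h3
  · exact h1
  · exact h2
  · exact h3
  · rcases h with h | h | h | h
    · exact absurd h h1
    · exact absurd h h2
    · exact absurd h h3
    · exact h



theorem Pf_even (h : ℕ → ℕ) (j : ℕ) : Pf h (2*j) = 35*j + h j := by
  have e3 : (2*j) % 2 = 0 := by omega
  have e4 : (2*j) / 2 = j := by omega
  simp only [Pf, e3, e4, if_true]

theorem Pf_odd (h : ℕ → ℕ) (j : ℕ) :
    Pf h (2*j+1) = 35*j + h j + ln (decide (h j < h (j+1))) := by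
  have e1 : (2*j+1) % 2 = 1 := by omega
  have e2 : (2*j+1) / 2 = j := by omega
  simp only [Pf, e1, e2, one_ne_zero, if_false]

theorem sf_even (h : ℕ → ℕ) (j : ℕ) : sf h (2*j) = decide (h j < h (j+1)) := by
  have e3 : (2*j) % 2 = 0 := by omega
  have e4 : (2*j) / 2 = j := by omega
  simp only [sf, e3, e4, if_true]

theorem sf_odd (h : ℕ → ℕ) (j : ℕ) : sf h (2*j+1) = decide (h j ≤ h (j+1)) := by
  have e1 : (2*j+1) % 2 = 1 := by omega
  have e2 : (2*j+1) / 2 = j := by omega
  simp only [sf, e1, e2, one_ne_zero, if_false]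

/-- shift demanded at one position -/
noncomputable def sh (d : ℕ → Option (Fin 3)) (n : ℕ) : ℕ :=
  match d n with
  | none => 0
  | some c => tt n c

theorem sh_le (d : ℕ → Option (Fin 3)) (n : ℕ) : sh d n ≤ 3 := by
  unfold sh
  split
  · omega
  · exact tt_le _ _

/-- shift demanded in one pair of blocks -/
noncomputable def uu (d : ℕ → Option (Fin 3)) (j : ℕ) : ℕ :=
  (Finset.range 35).sup (fun o => sh d (35*j+o))

theorem uu_le (d : ℕ → Option (Fin 3)) (j : ℕ) : uu d j ≤ 3 :=
  Finset.sup_le (fun _ _ => sh_le _ _)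

noncomputable def uq (d : ℕ → Option (Fin 3)) (n : ℕ) : ℕ := if n < 7 then 0 else uu d (n-7)

theorem uq_le (d : ℕ → Option (Fin 3)) (n : ℕ) : uq d n ≤ 3 := by
  unfold uq; split_ifs
  · omega
  · exact uu_le _ _

noncomputable def hh (d : ℕ → Option (Fin 3)) (i : ℕ) : ℕ :=
  max (max (max (uq d (i+3)) (uq d (i+2))) (max (uq d (i+1) - 1) (uq d i - 2)))
    (max (uq d (i+4) - 1) (uq d (i+5) - 2))

theorem hh_adm (d : ℕ → Option (Fin 3)) : Adm (hh d) := by
  constructor
  · have h : ∀ n, n < 7 → uq d n = 0 := fun n hn => by unfold uq; rw [if_pos hn]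
    simp [hh, h]
  · intro i
    have h0 := uq_le d i
    have h1 := uq_le d (i+1)
    have h2 := uq_le d (i+2)
    have h3 := uq_le d (i+3)
    have h4 := uq_le d (i+4)
    have h5 := uq_le d (i+5)
    have h6 := uq_le d (i+6)
    simp only [hh]
    have e1 : i + 1 + 3 = i + 4 := by ring
    have e2 : i + 1 + 2 = i + 3 := by ring
    have e3 : i + 1 + 1 = i + 2 := by ring
    have e4 : i + 1 + 4 = i + 5 := by ring
    have e5 : i + 1 + 5 = i + 6 := by ring
    rw [e1, e2, e3, e4, e5]
    generalize uq d i = a0 at *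
    generalize uq d (i+1) = a1 at *
    generalize uq d (i+2) = a2 at *
    generalize uq d (i+3) = a3 at *
    generalize uq d (i+4) = a4 at *
    generalize uq d (i+5) = a5 at *
    generalize uq d (i+6) = a6 at *
    constructor
    · have l1 : a3 ≤ max (max (max a3 a2) (max (a1 - 1) (a0 - 2))) (max (a4 - 1) (a5 - 2)) :=
        ((le_max_left _ _).trans (le_max_left _ _)).trans (le_max_left _ _)
      have l2 : a2 ≤ max (max (max a3 a2) (max (a1 - 1) (a0 - 2))) (max (a4 - 1) (a5 - 2)) :=
        ((le_max_right _ _).trans (le_max_left _ _)).trans (le_max_left _ _)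
      have l3 : a1 - 1 ≤ max (max (max a3 a2) (max (a1 - 1) (a0 - 2))) (max (a4 - 1) (a5 - 2)) :=
        ((le_max_left _ _).trans (le_max_right _ _)).trans (le_max_left _ _)
      have l4 : a4 - 1 ≤ max (max (max a3 a2) (max (a1 - 1) (a0 - 2))) (max (a4 - 1) (a5 - 2)) :=
        (le_max_left _ _).trans (le_max_right _ _)
      have l5 : a5 - 2 ≤ max (max (max a3 a2) (max (a1 - 1) (a0 - 2))) (max (a4 - 1) (a5 - 2)) :=
        (le_max_right _ _).trans (le_max_right _ _)
      generalize max (max (max a3 a2) (max (a1 - 1) (a0 - 2))) (max (a4 - 1) (a5 - 2)) = X at *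
      refine max_le (max_le (max_le ?_ ?_) (max_le ?_ ?_)) (max_le ?_ ?_) <;> omega
    · have l1 : a4 ≤ max (max (max a4 a3) (max (a2 - 1) (a1 - 2))) (max (a5 - 1) (a6 - 2)) :=
        ((le_max_left _ _).trans (le_max_left _ _)).trans (le_max_left _ _)
      have l2 : a3 ≤ max (max (max a4 a3) (max (a2 - 1) (a1 - 2))) (max (a5 - 1) (a6 - 2)) :=
        ((le_max_right _ _).trans (le_max_left _ _)).trans (le_max_left _ _)
      have l3 : a2 - 1 ≤ max (max (max a4 a3) (max (a2 - 1) (a1 - 2))) (max (a5 - 1) (a6 - 2)) :=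
        ((le_max_left _ _).trans (le_max_right _ _)).trans (le_max_left _ _)
      have l4 : a1 - 2 ≤ max (max (max a4 a3) (max (a2 - 1) (a1 - 2))) (max (a5 - 1) (a6 - 2)) :=
        ((le_max_right _ _).trans (le_max_right _ _)).trans (le_max_left _ _)
      have l5 : a5 - 1 ≤ max (max (max a4 a3) (max (a2 - 1) (a1 - 2))) (max (a5 - 1) (a6 - 2)) :=
        (le_max_left _ _).trans (le_max_right _ _)
      generalize max (max (max a4 a3) (max (a2 - 1) (a1 - 2))) (max (a5 - 1) (a6 - 2)) = X at *
      refine max_le (max_le (max_le ?_ ?_) (max_le ?_ ?_)) (max_le ?_ ?_) <;> omega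

/-- Demands are at distance at least `R` from one another. -/
def Sparse (d : ℕ → Option (Fin 3)) (R : ℕ) : Prop :=
  ∀ m n, m < n → d m ≠ none → d n ≠ none → m + R ≤ n

def Agree (d d' : ℕ → Option (Fin 3)) (R n : ℕ) : Prop :=
  ∀ k, k ≤ n + R → n ≤ k + R → d k = d' k

structure Good (R : ℕ) (S : Set ℕ) (Φ : (ℕ → Option (Fin 3)) → ℕ → Fin 3) : Prop where
  sq : ∀ d, Sparse d R → SqFree (Φ d)
  mod : ∀ d, Sparse d R → ∀ m ∈ S, SqFree (fun j => Φ d (m*j))
  dem : ∀ d, Sparse d R → ∀ n c, d n = some c → Φ d n = c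
  loc : ∀ d d', Sparse d R → Sparse d' R → ∀ n, Agree d d' R n → Φ d n = Φ d' n

noncomputable def Phi0 (d : ℕ → Option (Fin 3)) (n : ℕ) : Fin 3 := Wf (hh d) (n + 140)

theorem sh_none {d : ℕ → Option (Fin 3)} {n : ℕ} (h : d n = none) : sh d n = 0 := by
  unfold sh; rw [h]

theorem sh_some {d : ℕ → Option (Fin 3)} {n : ℕ} {c : Fin 3} (h : d n = some c) :
    sh d n = tt n c := by
  unfold sh; rw [h]

theorem Phi0_dem (d : ℕ → Option (Fin 3)) (hd : Sparse d 175) (q : ℕ) (c : Fin 3)
    (hq : d q = some c) : Phi0 d q = c := by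
  have hne : d q ≠ none := by rw [hq]; simp
  have hother : ∀ n, n ≠ q → n < q + 175 → q < n + 175 → d n = none := by
    intro n h1 h2 h3
    by_contra h
    rcases Nat.lt_or_ge n q with h4 | h4
    · have := hd n q h4 h hne; omega
    · have := hd q n (by omega) hne h; omega
  obtain ⟨j, o, hj, ho⟩ : ∃ j o, q = 35*j + o ∧ o < 35 := ⟨q/35, q%35, by omega, by omega⟩
  set t := tt q c with ht
  have ht3 : t ≤ 3 := tt_le q c
  have hu : uu d j = t := by
    apply le_antisymm
    · apply Finset.sup_le
      intro o' ho'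
      rw [Finset.mem_range] at ho'
      by_cases h : 35*j + o' = q
      · rw [h, sh_some hq]
      · rw [sh_none (hother _ h (by omega) (by omega))]; exact Nat.zero_le _
    · have h1 : sh d (35*j+o) ≤ uu d j :=
        Finset.le_sup (f := fun o => sh d (35*j+o)) (Finset.mem_range.2 ho)
      rw [← hj, sh_some hq] at h1
      exact h1
  have hu0 : ∀ j', j' ≠ j → j' ≤ j + 4 → j ≤ j' + 4 → uu d j' = 0 := by
    intro j' h1 h2 h3
    apply Nat.eq_zero_of_le_zero
    apply Finset.sup_le
    intro o' ho'
    rw [Finset.mem_range] at ho'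
    rw [sh_none (hother _ (by omega) (by omega) (by omega))]
  have huq : uq d (j+7) = t := by
    unfold uq; rw [if_neg (by omega)]; simpa using hu
  have huq0 : ∀ n, n ≠ j + 7 → j + 3 ≤ n → n ≤ j + 11 → uq d n = 0 := by
    intro n h1 h2 h3
    unfold uq
    split_ifs with h
    · rfl
    · exact hu0 _ (by omega) (by omega) (by omega)
  have z3 := huq0 (j+3) (by omega) (by omega) (by omega)
  have z4 := huq0 (j+4) (by omega) (by omega) (by omega)
  have z5 := huq0 (j+5) (by omega) (by omega) (by omega)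
  have z6 := huq0 (j+6) (by omega) (by omega) (by omega)
  have z8 := huq0 (j+8) (by omega) (by omega) (by omega)
  have z9 := huq0 (j+9) (by omega) (by omega) (by omega)
  have z10 := huq0 (j+10) (by omega) (by omega) (by omega)
  have h4 : hh d (j+4) = t := by
    show max (max (max (uq d (j+7)) (uq d (j+6))) (max (uq d (j+5) - 1) (uq d (j+4) - 2)))
      (max (uq d (j+8) - 1) (uq d (j+9) - 2)) = t
    rw [huq, z6, z5, z4, z8, z9]; simp
  have h5 : hh d (j+5) = t := by
    show max (max (max (uq d (j+8)) (uq d (j+7))) (max (uq d (j+6) - 1) (uq d (j+5) - 2)))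
      (max (uq d (j+9) - 1) (uq d (j+10) - 2)) = t
    rw [huq, z6, z5, z8, z9, z10]; simp
  have h3 : hh d (j+3) = t - 1 := by
    show max (max (max (uq d (j+6)) (uq d (j+5))) (max (uq d (j+4) - 1) (uq d (j+3) - 2)))
      (max (uq d (j+7) - 1) (uq d (j+8) - 2)) = t - 1
    rw [huq, z6, z5, z4, z3, z8]; simp
  have hadm := hh_adm d
  have hspec : D (q + 140 - t) = c := tt_spec q c
  unfold Phi0
  rw [← hspec]
  rcases Nat.lt_or_ge (q + 140 - t) (35*(j+4)) with hA | hA
  · -- second block of the previous pair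
    have ht1 : 1 ≤ t := by omega
    have a1 : Pf (hh d) (2*(j+3)+1) = 35*(j+3) + (t-1) + 18 := by
      rw [Pf_odd, show j + 3 + 1 = j + 4 by ring, h3, h4, decide_eq_true (by omega)]; rfl
    have a2 : sf (hh d) (2*(j+3)+1) = true := by
      rw [sf_odd, show j + 3 + 1 = j + 4 by ring, h3, h4, decide_eq_true (by omega)]
    have b1 : Pf (fun _ => 0) (2*(j+3)+1) = 35*(j+3) + 17 := by
      rw [Pf_odd]; rfl
    have b2 : sf (fun _ => 0) (2*(j+3)+1) = true := by
      rw [sf_odd]; rfl
    have c1 := Wf_spec hadm (2*(j+3)+1) (q + 140 - t - (35*(j+3)+17)) (by rw [a2]; simp [ln]; omega)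
    have c2 := Wf_spec adm0 (2*(j+3)+1) (q + 140 - t - (35*(j+3)+17)) (by rw [b2]; simp [ln]; omega)
    rw [a1, a2] at c1
    rw [b1, b2] at c2
    rw [show q + 140 = 35*(j+3) + (t-1) + 18 + (q + 140 - t - (35*(j+3)+17)) by omega, c1]
    unfold D
    rw [show 35*(j+3) + (t-1) + 18 + (q + 140 - t - (35*(j+3)+17)) - t = 
      35*(j+3) + 17 + (q + 140 - t - (35*(j+3)+17)) by omega, c2]
  · rcases Nat.lt_or_ge (q + 140 - t) (35*(j+4)+17) with hB | hB
    · -- first block of the pair
      have a1 : Pf (hh d) (2*(j+4)) = 35*(j+4) + t := by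
        rw [Pf_even, h4]
      have a2 : sf (hh d) (2*(j+4)) = false := by
        rw [sf_even, show j + 4 + 1 = j + 5 by ring, h5, h4, decide_eq_false (by omega)]
      have b1 : Pf (fun _ => 0) (2*(j+4)) = 35*(j+4) := by
        rw [Pf_even]; rfl
      have b2 : sf (fun _ => 0) (2*(j+4)) = false := by
        rw [sf_even]; rfl
      have c1 := Wf_spec hadm (2*(j+4)) (q + 140 - t - 35*(j+4)) (by rw [a2]; simp [ln]; omega)
      have c2 := Wf_spec adm0 (2*(j+4)) (q + 140 - t - 35*(j+4)) (by rw [b2]; simp [ln]; omega)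
      rw [a1, a2] at c1
      rw [b1, b2] at c2
      rw [show q + 140 = 35*(j+4) + t + (q + 140 - t - 35*(j+4)) by omega, c1]
      unfold D
      rw [show 35*(j+4) + t + (q + 140 - t - 35*(j+4)) - t = 
        35*(j+4) + (q + 140 - t - 35*(j+4)) by omega, c2]
    · -- second block of the pair
      have a1 : Pf (hh d) (2*(j+4)+1) = 35*(j+4) + t + 17 := by
        rw [Pf_odd, show j + 4 + 1 = j + 5 by ring, h5, h4, decide_eq_false (by omega)]; rfl
      have a2 : sf (hh d) (2*(j+4)+1) = true := by
        rw [sf_odd, show j + 4 + 1 = j + 5 by ring, h5, h4, decide_eq_true (by omega)]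
      have b1 : Pf (fun _ => 0) (2*(j+4)+1) = 35*(j+4) + 17 := by
        rw [Pf_odd]; rfl
      have b2 : sf (fun _ => 0) (2*(j+4)+1) = true := by
        rw [sf_odd]; rfl
      have c1 := Wf_spec hadm (2*(j+4)+1) (q + 140 - t - (35*(j+4)+17)) (by rw [a2]; simp [ln]; omega)
      have c2 := Wf_spec adm0 (2*(j+4)+1) (q + 140 - t - (35*(j+4)+17)) (by rw [b2]; simp [ln]; omega)
      rw [a1, a2] at c1
      rw [b1, b2] at c2
      rw [show q + 140 = 35*(j+4) + t + 17 + (q + 140 - t - (35*(j+4)+17)) by omega, c1]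
      unfold D
      rw [show 35*(j+4) + t + 17 + (q + 140 - t - (35*(j+4)+17)) - t = 
        35*(j+4) + 17 + (q + 140 - t - (35*(j+4)+17)) by omega, c2]

theorem Phi0_loc (d d' : ℕ → Option (Fin 3)) (n : ℕ) (h : Agree d d' 175 n) :
    Phi0 d n = Phi0 d' n := by
  have hadm := hh_adm d
  have hadm' := hh_adm d'
  obtain ⟨k, hk1, hk2⟩ := P_loc (Pf_zero hadm) (Pf_succ hadm) (n + 140)
  obtain ⟨j, hj⟩ : ∃ j, k = 2*j ∨ k = 2*j+1 := ⟨k/2, by omega⟩
  have hlow : 35 * j ≤ n + 140 := by
    rcases hj with rfl | rfl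
    · rw [Pf_even] at hk1; omega
    · rw [Pf_odd] at hk1; omega
  have hh3 : ∀ i, hh d i ≤ 3 := by
    intro i
    have h0 := uq_le d i
    have h1 := uq_le d (i+1)
    have h2 := uq_le d (i+2)
    have h3 := uq_le d (i+3)
    have h4 := uq_le d (i+4)
    have h5 := uq_le d (i+5)
    simp only [hh]; omega
  have hhigh : n + 140 < 35 * j + 38 := by
    have h3 := hh3 (j+1)
    have e : Pf (hh d) (2*(j+1)) = 35*(j+1) + hh d (j+1) := Pf_even _ _
    have hm : Pf (hh d) (k+1) ≤ Pf (hh d) (2*(j+1)) :=
      (P_mono (Pf_succ hadm)).le_iff_le.2 (by omega)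
    omega
  have huq : ∀ m, j ≤ m → m ≤ j + 6 → uq d m = uq d' m := by
    intro m h1 h2
    unfold uq
    split_ifs with h3
    · rfl
    · unfold uu
      apply Finset.sup_congr rfl
      intro o ho
      rw [Finset.mem_range] at ho
      unfold sh
      rw [h (35*(m-7)+o) (by omega) (by omega)]
  have e0 : hh d j = hh d' j := by
    simp only [hh]
    rw [huq j (by omega) (by omega), huq (j+1) (by omega) (by omega), huq (j+2) (by omega) (by omega),
      huq (j+3) (by omega) (by omega), huq (j+4) (by omega) (by omega), huq (j+5) (by omega) (by omega)]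
  have e1 : hh d (j+1) = hh d' (j+1) := by
    simp only [hh]
    rw [huq (j+1) (by omega) (by omega), huq (j+1+1) (by omega) (by omega),
      huq (j+1+2) (by omega) (by omega), huq (j+1+3) (by omega) (by omega),
      huq (j+1+4) (by omega) (by omega), huq (j+1+5) (by omega) (by omega)]
  have hP : Pf (hh d) k = Pf (hh d') k := by
    rcases hj with rfl | rfl
    · rw [Pf_even, Pf_even, e0]
    · rw [Pf_odd, Pf_odd, e0, e1]
  have hs : sf (hh d) k = sf (hh d') k := by
    rcases hj with rfl | rfl
    · rw [sf_even, sf_even, e0, e1]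
    · rw [sf_odd, sf_odd, e0, e1]
  have hk3 : Pf (hh d) (k+1) = Pf (hh d) k + ln (sf (hh d) k) := Pf_succ hadm k
  have c1 := Wf_spec hadm k (n + 140 - Pf (hh d) k) (by omega)
  have c2 := Wf_spec hadm' k (n + 140 - Pf (hh d) k) (by rw [← hs]; omega)
  rw [← hP, ← hs, ← c1] at c2
  unfold Phi0
  rw [show n + 140 = Pf (hh d) k + (n + 140 - Pf (hh d) k) by omega]
  exact c2.symm

theorem good0 : Good 175 ∅ Phi0 where
  sq := by
    intro d _ i l hl
    obtain ⟨j, hj, h⟩ := Wf_sqFree (hh_adm d) (i + 140) l hl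
    refine ⟨j, hj, ?_⟩
    unfold Phi0
    rw [show i + j + 140 = i + 140 + j by ring, show i + l + j + 140 = i + 140 + l + j by ring]
    exact h
  mod := by intro d _ m hm; exact absurd hm (Set.notMem_empty m)
  dem := Phi0_dem
  loc := fun d d' _ _ n h => Phi0_loc d d' n h

/-- `j` is near a demand, at scale `M` -/
def Near (M r : ℕ) (d : ℕ → Option (Fin 3)) (j : ℕ) : Prop :=
  ∃ k, k ≤ M*j + r ∧ M*j ≤ k + r ∧ d k ≠ none

open Classical in
noncomputable def del (M r : ℕ) (Φ : (ℕ → Option (Fin 3)) → ℕ → Fin 3) (d : ℕ → Option (Fin 3)) :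
    ℕ → Option (Fin 3) :=
  fun j => if Near M r d j then some (Φ d (M*j)) else none

open Classical in
noncomputable def ext (M r : ℕ) (Φ : (ℕ → Option (Fin 3)) → ℕ → Fin 3) (d : ℕ → Option (Fin 3)) :
    ℕ → Option (Fin 3) :=
  fun n => if M ∣ n ∧ ¬ Near M r d (n/M) then some (Phi0 (del M r Φ d) (n/M)) else d n

theorem good_step {r : ℕ} {S : Set ℕ} {Φ : (ℕ → Option (Fin 3)) → ℕ → Fin 3} (hΦ : Good r S Φ)
    {M : ℕ} (hr : 175 ≤ r) (hM : 2*r < M) :
    Good (175*M + 2*r) (insert M S) (fun d => Φ (ext M r Φ d)) := by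
  have hM0 : 0 < M := by omega
  -- sparsity
  have hspr : ∀ d, Sparse d (175*M+2*r) → Sparse d r := by
    intro d hd m n h1 h2 h3
    have := hd m n h1 h2 h3
    omega
  have hdel : ∀ d, Sparse d (175*M+2*r) → Sparse (del M r Φ d) 175 := by
    intro d hd m n hmn h1 h2
    have hN1 : Near M r d m := by
      by_contra h; exact h1 (by simp [del, h])
    have hN2 : Near M r d n := by
      by_contra h; exact h2 (by simp [del, h])
    obtain ⟨k, k1, k2, k3⟩ := hN1
    obtain ⟨k', k1', k2', k3'⟩ := hN2
    have h4 : M*(m+1) ≤ M*n := Nat.mul_le_mul_left M hmn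
    rw [Nat.mul_add, Nat.mul_one] at h4
    have h5 := hd k k' (by omega) k3 k3'
    have h6 : M*(m + 175) ≤ M*n := by rw [Nat.mul_add]; omega
    exact Nat.le_of_mul_le_mul_left h6 hM0
  have hext : ∀ d, Sparse d (175*M+2*r) → Sparse (ext M r Φ d) r := by
    intro d hd m n hmn h1 h2
    by_cases hm : M ∣ m ∧ ¬ Near M r d (m/M)
    · by_cases hn : M ∣ n ∧ ¬ Near M r d (n/M)
      · obtain ⟨⟨a, rfl⟩, _⟩ := hm
        obtain ⟨⟨b, rfl⟩, _⟩ := hn
        have h3 : a < b := Nat.lt_of_mul_lt_mul_left hmn
        have h4 : M*(a+1) ≤ M*b := Nat.mul_le_mul_left M h3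
        rw [Nat.mul_add, Nat.mul_one] at h4
        omega
      · have h3 : d n ≠ none := by
          intro h; apply h2; simp only [ext]; rw [if_neg hn, h]
        obtain ⟨⟨a, rfl⟩, hm2⟩ := hm
        by_contra hh
        apply hm2
        rw [Nat.mul_div_cancel_left a hM0]
        exact ⟨n, by omega, by omega, h3⟩
    · have h3 : d m ≠ none := by
        intro h; apply h1; simp only [ext]; rw [if_neg hm, h]
      by_cases hn : M ∣ n ∧ ¬ Near M r d (n/M)
      · obtain ⟨⟨b, rfl⟩, hn2⟩ := hn
        by_contra hh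
        apply hn2
        rw [Nat.mul_div_cancel_left b hM0]
        exact ⟨m, by omega, by omega, h3⟩
      · have h4 : d n ≠ none := by
          intro h; apply h2; simp only [ext]; rw [if_neg hn, h]
        have := hd m n hmn h3 h4
        omega
  -- the letters on the multiples of `M`
  have hval : ∀ d, Sparse d (175*M+2*r) → ∀ j, Φ (ext M r Φ d) (M*j) = Phi0 (del M r Φ d) j := by
    intro d hd j
    by_cases hN : Near M r d j
    · have h1 : Phi0 (del M r Φ d) j = Φ d (M*j) := by
        apply good0.dem _ (hdel d hd)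
        simp [del, hN]
      rw [h1]
      apply hΦ.loc _ _ (hext d hd) (hspr d hd)
      intro k k1 k2
      simp only [ext]
      rw [if_neg]
      rintro ⟨⟨a, rfl⟩, h2⟩
      apply h2
      have : a = j := by
        rcases Nat.lt_trichotomy a j with h3 | h3 | h3
        · have h4 : M*(a+1) ≤ M*j := Nat.mul_le_mul_left M h3
          rw [Nat.mul_add, Nat.mul_one] at h4
          omega
        · exact h3
        · have h4 : M*(j+1) ≤ M*a := Nat.mul_le_mul_left M h3
          rw [Nat.mul_add, Nat.mul_one] at h4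
          omega
      subst this
      rw [Nat.mul_div_cancel_left a hM0]
      exact hN
    · apply hΦ.dem _ (hext d hd)
      simp only [ext]
      rw [Nat.mul_div_cancel_left j hM0, if_pos ⟨Dvd.intro _ rfl, hN⟩]
  refine ⟨fun d hd => hΦ.sq _ (hext d hd), ?_, ?_, ?_⟩
  · intro d hd m hm
    rcases Set.mem_insert_iff.1 hm with rfl | hm
    · have h1 : (fun j => Φ (ext m r Φ d) (m*j)) = Phi0 (del m r Φ d) := by
        funext j; exact hval d hd j
      rw [h1]
      exact good0.sq _ (hdel d hd)
    · exact hΦ.mod _ (hext d hd) m hm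
  · intro d hd n c hn
    apply hΦ.dem _ (hext d hd)
    simp only [ext]
    rw [if_neg, hn]
    rintro ⟨⟨a, rfl⟩, h2⟩
    apply h2
    rw [Nat.mul_div_cancel_left a hM0]
    exact ⟨M*a, by omega, by omega, by rw [hn]; simp⟩
  · intro d d' hd hd' n hag
    apply hΦ.loc _ _ (hext d hd) (hext d' hd')
    intro k k1 k2
    -- near agrees for indices close to `n`
    have hnear : ∀ j, M*j ≤ n + 175*M + r → n ≤ M*j + 175*M + r → (Near M r d j ↔ Near M r d' j) := by
      intro j j1 j2
      constructor
      · rintro ⟨q, q1, q2, q3⟩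
        refine ⟨q, q1, q2, ?_⟩
        rw [← hag q (by omega) (by omega)]; exact q3
      · rintro ⟨q, q1, q2, q3⟩
        refine ⟨q, q1, q2, ?_⟩
        rw [hag q (by omega) (by omega)]; exact q3
    have hdd : d k = d' k := hag k (by omega) (by omega)
    by_cases hdiv : M ∣ k
    · obtain ⟨a, rfl⟩ := hdiv
      have hna := hnear a (by omega) (by omega)
      have hdel' : Phi0 (del M r Φ d) a = Phi0 (del M r Φ d') a := by
        apply good0.loc _ _ (hdel d hd) (hdel d' hd')
        intro j j1 j2
        have j1' : M*j ≤ M*a + 175*M := by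
          have := Nat.mul_le_mul_left M j1
          rw [Nat.mul_add] at this; omega
        have j2' : M*a ≤ M*j + 175*M := by
          have := Nat.mul_le_mul_left M j2
          rw [Nat.mul_add] at this; omega
        have hnj := hnear j (by omega) (by omega)
        simp only [del]
        by_cases hN : Near M r d j
        · rw [if_pos hN, if_pos (hnj.1 hN)]
          congr 1
          apply hΦ.loc _ _ (hspr d hd) (hspr d' hd')
          intro q q1 q2
          exact hag q (by omega) (by omega)
        · rw [if_neg hN, if_neg (fun h => hN (hnj.2 h))]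
      simp only [ext]
      rw [Nat.mul_div_cancel_left a hM0]
      by_cases hN : Near M r d a
      · rw [if_neg (fun h => h.2 hN), if_neg (fun h => h.2 (hna.1 hN)), hdd]
      · rw [if_pos ⟨Dvd.intro _ rfl, hN⟩, if_pos ⟨Dvd.intro _ rfl, fun h => hN (hna.2 h)⟩, hdel']
    · simp only [ext]
      rw [if_neg (fun h => hdiv h.1), if_neg (fun h => hdiv h.1), hdd]

theorem exists_good (p : ℕ → ℕ) (h0 : 351 ≤ p 0) (hp : ∀ i, 352 * p i ≤ p (i+1)) (m : ℕ) :
    ∃ r Φ, Good r {x | ∃ i < m, x = p i} Φ ∧ 175 ≤ r ∧ 2*r < p m := by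
  induction m with
  | zero =>
    refine ⟨175, Phi0, ?_, le_rfl, by omega⟩
    have : {x | ∃ i < 0, x = p i} = (∅ : Set ℕ) := by
      ext x; simp
    rw [this]; exact good0
  | succ m ih =>
    obtain ⟨r, Φ, h1, h2, h3⟩ := ih
    refine ⟨175 * p m + 2*r, fun d => Φ (ext (p m) r Φ d), ?_, by omega, by have := hp m; omega⟩
    have h4 := good_step h1 h2 h3
    have h5 : insert (p m) {x | ∃ i < m, x = p i} = {x | ∃ i < m + 1, x = p i} := by
      ext x
      simp only [Set.mem_insert_iff, Set.mem_ofPred_eq]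
      constructor
      · rintro (h | ⟨i, hi, h⟩)
        · exact ⟨m, by omega, h⟩
        · exact ⟨i, by omega, h⟩
      · rintro ⟨i, hi, h⟩
        rcases Nat.lt_or_ge i m with h6 | h6
        · exact Or.inr ⟨i, h6, h⟩
        · have : i = m := by omega
          subst this; exact Or.inl h
    rw [h5] at h4
    exact h4

theorem main (p : ℕ → ℕ) (h0 : 351 ≤ p 0) (hp : ∀ i, 352 * p i ≤ p (i+1)) :
    ∃ w : ℕ → Fin 3, SqFree w ∧ ∀ i, SqFree (fun j => w (p i * j)) := by
  have hs : ∀ r, Sparse (fun _ => none) r := by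
    intro r m n _ h; exact absurd rfl h
  have hF : ∀ m, ∃ w : ℕ → Fin 3, SqFree w ∧ ∀ i < m, SqFree (fun j => w (p i * j)) := by
    intro m
    obtain ⟨r, Φ, h1, _, _⟩ := exists_good p h0 hp m
    exact ⟨Φ (fun _ => none), h1.sq _ (hs r), fun i hi => h1.mod _ (hs r) _ ⟨i, hi, rfl⟩⟩
  choose F hF1 hF2 using hF
  obtain ⟨w, hw⟩ := compact_words F
  refine ⟨w, ?_, ?_⟩
  · intro i l hl
    obtain ⟨m, _, h⟩ := hw (Finset.range (i + 2*l)) 0
    obtain ⟨j, hj, h1⟩ := hF1 m i l hl
    refine ⟨j, hj, ?_⟩
    rw [← h _ (by simp; omega), ← h _ (by simp; omega)]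
    exact h1
  · intro q i l hl
    obtain ⟨m, hm, h⟩ := hw (Finset.range (p q * (i + 2*l))) (q+1)
    obtain ⟨j, hj, h1⟩ := hF2 m q (by omega) i l hl
    refine ⟨j, hj, ?_⟩
    have hpq : 0 < p q := by
      cases q with
      | zero => omega
      | succ q =>
        have : ∀ q, 0 < p q := by
          intro q
          induction q with
          | zero => omega
          | succ q ih => have := hp q; omega
        exact this _
    have e1 : p q * (i + j) < p q * (i + 2*l) := Nat.mul_lt_mul_of_pos_left (by omega) hpq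
    have e2 : p q * (i + l + j) < p q * (i + 2*l) := Nat.mul_lt_mul_of_pos_left (by omega) hpq
    show w (p q * (i + j)) ≠ w (p q * (i + l + j))
    rw [← h _ (Finset.mem_range.2 e1), ← h _ (Finset.mem_range.2 e2)]
    exact h1


/-- An infinite ternary word is square-free when it has no factor `uu` with `u` nonempty: there is no
position `i` and no length `l > 0` with `w (i + j) = w (i + l + j)` for all `j < l`. -/
def SquareFree (w : ℕ → Fin 3) : Prop :=
  ¬ ∃ i l : ℕ, 0 < l ∧ ∀ j < l, w (i + j) = w (i + l + j)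

theorem squareFree_of {w : ℕ → Fin 3} (h : SqFree w) : SquareFree w := by
  rintro ⟨i, l, hl, h1⟩
  obtain ⟨j, hj, h2⟩ := h i l hl
  exact h2 (h1 j hj)

/-- For every sequence `s` with `351 ≤ s 0` and `352 * s i ≤ s (i + 1)` for all `i` there is an infinite
ternary square-free word which is square-free modulo `s i` for every `i`. -/
theorem result (s : ℕ → ℕ) (h0 : 351 ≤ s 0) (hs : ∀ i, 352 * s i ≤ s (i + 1)) :
    ∃ w : ℕ → Fin 3, SquareFree w ∧ ∀ i, SquareFree (fun j => w (s i * j)) := by
  obtain ⟨w, h1, h2⟩ := main s h0 hs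
  exact ⟨w, squareFree_of h1, fun i => squareFree_of (h2 i)⟩

end Pool.Agent.Results.MP_908f5f_co.SparseModuli
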